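import Pool.Agent.E8helper16.UK.QVB

/-!
# If the Whitehead groups of all torsion-free groups vanish then they vanish uniformly

Let `C` be a class of groups which contains `ℤ` and is closed under isomorphisms, subgroups and direct products (of
arbitrary families), for example the class of all torsion-free groups.  We show that `Wh(G) = 0` for all `G` in `C` if
and only if this holds with bounds which depend only on the size of the matrices:

  for all `n` and `s` there is `N` such that for every group `G` in `C` and every invertible matrix `A` of size `n` over
  `ℤG` with `‖A‖ ≤ s` and `‖A⁻¹‖ ≤ s` (the sums of the `ℓ¹`-norms of the entries) the block sum of `A` and the identity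
  matrix of size `N` is a product of at most `N` matrices, each of them elementary or diagonal with one entry `± g` and
  all others `1`, with entries of `ℓ¹`-norm at most `N`.

The same bounds then hold for all groups `G`, in every universe, in the quasi-variety generated by `C`: the groups which
satisfy every implication `r_1 = 1, ..., r_k = 1 ⟹ w = 1` between equations which holds in all groups of `C`.  For the
class of torsion-free groups these are all torsion-free groups.

Proof.  There are only finitely many patterns: `A` and `A⁻¹` come from matrices over `ℤH`, inverse to each other, where
the finitely presented group `H` and the matrices are taken from a finite list which depends only on `n` and `s`.  Since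
`G` is in `C` the homomorphism `H → G` factors through the quotient `QC C H` of `H` by the intersection of all normal
subgroups with quotient in `C`; `QC C H` is itself in `C`, as a subgroup of a direct product, so that the matrix is
stably a product of elementary matrices and trivial units over `ℤ[QC C H]`; and homomorphisms do not increase norms.
-/

namespace Pool.Agent.Results.MP_16fe43_al.UniformWhiteheadVanishingH16

open Pool.Agent.E8helper16.UK

universe u

/-- **Vanishing is uniform.**  For every class `C` of groups which contains `ℤ` and is closed under isomorphisms,
subgroups and direct products, `Wh(G) = 0` for all `G` in `C` if and only if this holds with bounds which depend only on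
the size `n` and the norm `s`; and then there are such bounds for all groups, in every universe, in the quasi-variety
generated by `C`.  The torsion-free groups are such a class, and its quasi-variety contains the torsion-free groups of
every universe. -/
theorem result :
    (∀ C : (G : Type) → [Group G] → Prop, ClosedClass C →
      ((∀ (G : Type) [Group G], C G → WhZero G) ↔
        ∀ n s : ℕ, ∃ N : ℕ, ∀ (G : Type) [Group G], C G → ∀ A B : Matrix (Fin n) (Fin n) (ZG G),
          A * B = 1 → B * A = 1 → ml1 A ≤ s → ml1 B ≤ s → Short N N N A) ∧
      ((∀ (G : Type) [Group G], C G → WhZero G) →
        ∀ n s : ℕ, ∃ N : ℕ, ∀ (G : Type u) [Group G], QV C G → ∀ A B : Matrix (Fin n) (Fin n) (ZG G),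
          A * B = 1 → B * A = 1 → ml1 A ≤ s → ml1 B ≤ s → Short N N N A)) ∧
    ClosedClass (fun (G : Type) [Group G] => TF G) ∧
    (∀ (G : Type u) [Group G], TF G → QV (fun (G : Type) [Group G] => TF G) G) := by
  refine ⟨fun C hC => ⟨⟨fun h n s => ?_, fun h G _ hG => ?_⟩, fun h n s => ?_⟩, closed_TF, fun G _ hG => QV.of_TF hG⟩
  · obtain ⟨N, hN⟩ := unif_class hC (h _ (t_UC C hC).2.1) n s
    exact ⟨N, fun G _ hG => hN G fun ρ φ => quot_mem hC ρ.G G φ hG⟩
  · refine wh_of_unif fun n s => ?_
    obtain ⟨N, hN⟩ := h n s
    exact ⟨N, hN G hG⟩
  · exact unif_QV hC (h _ (t_UC C hC).2.1) n s

end Pool.Agent.Results.MP_16fe43_al.UniformWhiteheadVanishingH16
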