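import Pool.Agent.E8helper16.UK.QV

/-!
# The vanishing of the low K-groups for all torsion-free groups is the vanishing of `Wh(U)` for one countable group `U`

Let `C` be a class of groups which contains `ℤ` and is closed under isomorphisms, subgroups and direct products (of
arbitrary families); for example the class of all torsion-free groups, or the class of all left-orderable, of all
bi-orderable or of all locally indicable groups.  For a group `H` let `QC C H` be the quotient of `H` by the
intersection of all normal subgroups with quotient in `C`, and let `UC C` be the restricted direct product of the groups
`QC C H`, where `H` runs through the finitely presented groups (one factor for every finite presentation).  `UC C` is a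
countable group in `C`.  We show that the three statements of the problem, for ALL groups `G` in `C`, are equivalent to
the vanishing of the single countable abelian group `Wh(UC C)`:

  `Wh(UC C) = 0` if and only if `Wh(G) = 0`, the reduced `K_0(ℤG)` is `0` and `K_n(ℤG) = 0` for all `n ≤ -1`, for all
  groups `G` in `C`;

moreover `Wh(UC C) = 0` implies the three statements for all groups `G`, in every universe, in the quasi-variety
generated by `C`: the groups which satisfy every implication `r_1 = 1, ..., r_k = 1 ⟹ w = 1` between equations which
holds in all groups of `C` (for example limits of groups of `C` in the space of marked groups).  For the class of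
torsion-free groups these are all torsion-free groups.  So question Q1 of the problem asks whether `Wh(U) = 0` for one
explicit countable torsion-free group `U`.

Proof.  An invertible matrix `A` over `ℤG` comes from an invertible matrix over `ℤH` for a finitely presented group
`H → G`; since `G` is in `C`, or in the quasi-variety, the homomorphism factors through `QC C H`, a retract of `UC C`.  So
`Wh(UC C) = 0` implies `Wh(G) = 0`.  For an idempotent matrix `e` over `R = ℤG` the matrix `1 - e + t e` over
`R[t, t⁻¹] = ℤ[ℤ × G]` is invertible; if it is stably a product of elementary matrices and trivial units then the image
of `e` is stably free (Bass, Heller, Swan; proved here by a comparison of the lattices `R[t] ^ N M` and `t ^ k R[t] ^ N`).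
So `Wh(ℤ × G) = 0` implies that the reduced `K_0(ℤG)` is `0`, and this for the groups `ℤ ^ n × G` implies that the negative
K-groups of `ℤG` are `0`.

The definitions are in `Pool/Agent/E8helper16/UK/Stm.lean`, `Pool/Agent/E8helper16/UK/Cls.lean` and
`Pool/Agent/E8helper16/UK/QV.lean`.
-/

namespace Pool.Agent.Results.MP_16fe43_al.UniversalCountableGroupH16

open Pool.Agent.E8helper16.UK

universe u

/-- **One countable group decides.**  For every class `C` of groups which contains `ℤ` and is closed under isomorphisms,
subgroups and direct products, `UC C` is a countable group in `C`, and `Wh(UC C) = 0` if and only if the three statements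
of the problem hold for all groups in `C`; then they hold for all groups, in every universe, in the quasi-variety
generated by `C`.  The torsion-free groups are such a class, and its quasi-variety contains the torsion-free groups of
every universe. -/
theorem result :
    (∀ C : (G : Type) → [Group G] → Prop, ClosedClass C →
      Countable (UC C) ∧ C (UC C) ∧
      (WhZero (UC C) ↔ ∀ (G : Type) [Group G], C G →
        WhZero G ∧ KZero G ∧ ∀ n : ℕ, 1 ≤ n → Subsingleton ((KNeg.{0} n).obj (ZG G))) ∧
      (WhZero (UC C) → ∀ (G : Type u) [Group G], QV C G →
        WhZero G ∧ KZero G ∧ ∀ n : ℕ, 1 ≤ n → Subsingleton ((KNeg.{u} n).obj (ZG G)))) ∧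
    ClosedClass (fun (G : Type) [Group G] => TF G) ∧
    (∀ (G : Type u) [Group G], TF G → QV (fun (G : Type) [Group G] => TF G) G) :=
  ⟨fun C hC => ⟨(final_class C hC).1, (final_class C hC).2.1, (final_class C hC).2.2,
    fun h G _ hG => final_QV C hC h G hG⟩, closed_TF, fun G _ hG => QV.of_TF hG⟩

end Pool.Agent.Results.MP_16fe43_al.UniversalCountableGroupH16
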