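import Pool.Agent.E8helper16.UK.QVC
import Pool.Agent.E8helper22.UK.MatY
import Pool.Agent.E8helper41.UK.Pati

/-!
# The reduced `K_0`: one countable group decides, and vanishing is uniform

Let `C` be a class of groups which contains `ℤ` and is closed under isomorphisms, subgroups and direct products (of
arbitrary families), for example the class of all torsion-free groups, and let `UC C` be the restricted direct product
of the groups `QC C H`, `H` a finitely presented group (one factor for every finite presentation), where `QC C H` is the
quotient of `H` by the intersection of all normal subgroups with quotient in `C`.  `UC C` is a countable group in `C`.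
We show that the following are equivalent:

* the reduced `K_0(ℤ[UC C])` is `0`;
* the reduced `K_0(ℤG)` is `0` and `K_n(ℤG) = 0` for all `n ≤ -1`, for ALL groups `G` in `C`;
* for all `n` and `s` there is `N` such that for every group `G` in `C` and every idempotent matrix `e` of size `n` over
  `ℤG` with `‖e‖ ≤ s` (the sum of the `ℓ¹`-norms of the entries) the image `P` of `e` satisfies `P ⊕ ℤG ^ a ≅ ℤG ^ b`
  with `a, b ≤ N`, by an isomorphism which is, with its inverse, given by matrices with entries of norm at most `N`.

If they hold then the last two statements hold for all groups `G`, in every universe, in the quasi-variety generated by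
`C`: the groups which satisfy every implication `r_1 = 1, ..., r_k = 1 ⟹ w = 1` between equations which holds in all
groups of `C`.  For the class of torsion-free groups these are all torsion-free groups.

Proof.  There are only finitely many patterns: `e` comes from an idempotent matrix over `ℤH`, where the finitely presented
group `H` and the matrix are taken from a finite list which depends only on `n` and `s`.  Since `G` is in `C` the
homomorphism `H → G` factors through `QC C H`, a retract of `UC C`, and homomorphisms do not increase norms.  The
negative K-groups: `K_0(ℤ[ℤ × G])` is generated by the free modules if `K_0`, reduced, vanishes for `ℤ × G`, so that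
`K_{-1}(ℤG) = 0`, and so on.
-/

namespace Pool.Agent.Results.MP_16fe43_al.UniversalGroupForKZeroH16

open Pool.Agent.E8helper16.UK

universe u

/-- **The reduced `K_0`.**  For every class `C` of groups which contains `ℤ` and is closed under isomorphisms, subgroups
and direct products, `UC C` is a countable group in `C`, and the reduced `K_0(ℤ[UC C])` is `0` if and only if the reduced
`K_0(ℤG)` and all `K_n(ℤG)`, `n ≤ -1`, are `0` for all `G` in `C`, and if and only if the images of idempotent matrices
over `ℤG`, `G` in `C`, are stably free with bounds which depend only on the size `n` and the norm `s`; and then both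
statements hold for all groups, in every universe, in the quasi-variety generated by `C`.  The torsion-free groups are
such a class, and its quasi-variety contains the torsion-free groups of every universe. -/
theorem result :
    (∀ C : (G : Type) → [Group G] → Prop, ClosedClass C →
      Countable (UC C) ∧ C (UC C) ∧
      (KZero (UC C) ↔ ∀ (G : Type) [Group G], C G →
        KZero G ∧ ∀ n : ℕ, 1 ≤ n → Subsingleton ((KNeg.{0} n).obj (ZG G))) ∧
      (KZero (UC C) ↔ ∀ n s : ℕ, ∃ N : ℕ, ∀ (G : Type) [Group G], C G → ∀ e : Matrix (Fin n) (Fin n) (ZG G),
        e * e = e → ml1 e ≤ s → ShortFree N e) ∧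
      (KZero (UC C) →
        (∀ (G : Type u) [Group G], QV C G → KZero G ∧ ∀ n : ℕ, 1 ≤ n → Subsingleton ((KNeg.{u} n).obj (ZG G))) ∧
        ∀ n s : ℕ, ∃ N : ℕ, ∀ (G : Type u) [Group G], QV C G → ∀ e : Matrix (Fin n) (Fin n) (ZG G),
          e * e = e → ml1 e ≤ s → ShortFree N e)) ∧
    ClosedClass (fun (G : Type) [Group G] => TF G) ∧
    (∀ (G : Type u) [Group G], TF G → QV (fun (G : Type) [Group G] => TF G) G) := by
  have hPI : S_PATI.{u} := Pool.Agent.E8helper41.UK.t_PATI Pool.Agent.E8helper42.UK.t_PATA
  have hPI0 : S_PATI.{0} := Pool.Agent.E8helper41.UK.t_PATI Pool.Agent.E8helper42.UK.t_PATA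
  refine ⟨fun C hC => ?_, closed_TF, fun G _ hG => QV.of_TF hG⟩
  have key : KZero (UC C) → ∀ n s : ℕ, ∃ N : ℕ, ∀ (G : Type) [Group G], C G → ∀ e : Matrix (Fin n) (Fin n) (ZG G),
      e * e = e → ml1 e ≤ s → ShortFree N e := by
    intro h n s
    obtain ⟨N, hN⟩ := unif_classK hPI0 hC h n s
    exact ⟨N, fun G _ hG => hN G fun ρ φ => quot_mem hC ρ.G G φ hG⟩
  have key2 : (∀ n s : ℕ, ∃ N : ℕ, ∀ (G : Type) [Group G], C G → ∀ e : Matrix (Fin n) (Fin n) (ZG G),
      e * e = e → ml1 e ≤ s → ShortFree N e) → ∀ (G : Type) [Group G], C G → KZero G := by
    intro h G _ hG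
    refine kz_of_unif Pool.Agent.E8helper22.UK.t_MATY fun n s => ?_
    obtain ⟨N, hN⟩ := h n s
    exact ⟨N, hN G hG⟩
  refine ⟨(t_UC C hC).1, (t_UC C hC).2.1, ⟨fun h G _ hG => ?_, fun h => (h _ (t_UC C hC).2.1).1⟩,
    ⟨key, fun h => key2 h _ (t_UC C hC).2.1⟩,
    fun h => ⟨fun G _ hG => final_QVK hPI Pool.Agent.E8helper22.UK.t_MATY hC h G hG, fun n s => unif_QVK hPI hC h n s⟩⟩
  exact from_kz (P := C) (fun H _ hH => hC.prod _ _ hC.int hH) (fun H _ hH => key2 (key h) H hH) G hG

end Pool.Agent.Results.MP_16fe43_al.UniversalGroupForKZeroH16
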